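import Pool.Agent.Helper16.AZ.Stmts

/-! Group extensions of minimal torus rotations (MP_7a8f48_an): uniqueness of Fourier
coefficients. -/

set_option autoImplicit false

open Finset Filter MeasureTheory Topology
open scoped ComplexConjugate InnerProductSpace

namespace Pool.Agent.Helper16.AZ

open Pool.Agent.Helper16.MD (MS PB Am RW Rich)
open UnitAddTorus (mFourier)

theorem l1z_int {r : ℕ} {F : T r → ℂ} (hF : Integrable F (mm r)) (ψ : C(T r, ℂ)) :
    Integrable (fun θ => ψ θ * F θ) (mm r) :=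
  hF.bdd_mul ψ.continuous.aestronglyMeasurable (ae_of_all _ fun θ => ψ.norm_coe_le_norm θ)

theorem l1z_cont {r : ℕ} {F : T r → ℂ} (hF : Integrable F (mm r))
    (h0 : ∀ X : Fin r → ℤ, ∫ θ, mFourier X θ * F θ ∂(mm r) = 0) (ψ : C(T r, ℂ)) :
    ∫ θ, ψ θ * F θ ∂(mm r) = 0 := by
  let Λ0 : C(T r, ℂ) →ₗ[ℂ] ℂ :=
    { toFun := fun ψ => ∫ θ, ψ θ * F θ ∂(mm r)
      map_add' := by
        intro ψ φ
        rw [← integral_add (l1z_int hF ψ) (l1z_int hF φ)]
        refine integral_congr_ae (ae_of_all _ fun θ => ?_)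
        simp only [ContinuousMap.add_apply]
        ring
      map_smul' := by
        intro c ψ
        rw [RingHom.id_apply, smul_eq_mul, ← integral_const_mul]
        refine integral_congr_ae (ae_of_all _ fun θ => ?_)
        simp only [ContinuousMap.smul_apply, smul_eq_mul]
        ring }
  let Λ : C(T r, ℂ) →L[ℂ] ℂ := LinearMap.mkContinuous Λ0 (∫ θ, ‖F θ‖ ∂(mm r)) (by
    intro ψ
    refine le_trans (norm_integral_le_integral_norm _) ?_
    rw [mul_comm, ← integral_const_mul]
    refine integral_mono (l1z_int hF ψ).norm (hF.norm.const_mul _) fun θ => ?_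
    simp only [norm_mul]
    exact mul_le_mul_of_nonneg_right (ψ.norm_coe_le_norm θ) (norm_nonneg _))
  have hspan : Submodule.span ℂ (Set.range (mFourier (d := Fin r))) ≤ LinearMap.ker Λ.toLinearMap := by
    rw [Submodule.span_le]
    rintro _ ⟨X, rfl⟩
    exact h0 X
  have hcl := Submodule.topologicalClosure_minimal _ hspan Λ.isClosed_ker
  rw [UnitAddTorus.span_mFourier_closure_eq_top] at hcl
  exact hcl (Submodule.mem_top : ψ ∈ ⊤)

theorem st_L1Z : ST_L1Z := by
  intro r F hF h0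
  refine ae_eq_zero_of_forall_setIntegral_isClosed_eq_zero hF fun s hs => ?_
  have hδ : ∀ n : ℕ, (0 : ℝ) < 1 / ((n : ℝ) + 1) := fun n => by positivity
  have hlim : Tendsto (fun n : ℕ => 1 / ((n : ℝ) + 1)) atTop (𝓝 0) :=
    tendsto_one_div_add_atTop_nhds_zero_nat
  let ψ : ℕ → C(T r, ℂ) := fun n =>
    ⟨fun θ => ((thickenedIndicator (hδ n) s θ : ℝ) : ℂ), by
      exact Complex.continuous_ofReal.comp
        (NNReal.continuous_coe.comp (thickenedIndicator (hδ n) s).continuous)⟩
  have hzero : ∀ n, ∫ θ, ψ n θ * F θ ∂(mm r) = 0 := fun n => l1z_cont hF h0 (ψ n)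
  have hpt : ∀ θ : T r, Tendsto (fun n => ψ n θ * F θ) atTop (𝓝 (s.indicator F θ)) := by
    intro θ
    have h1 := thickenedIndicator_tendsto_indicator_closure hδ hlim s
    rw [tendsto_pi_nhds] at h1
    have h2 := h1 θ
    rw [hs.closure_eq] at h2
    have h3 : Tendsto (fun n => (((thickenedIndicator (hδ n) s θ : NNReal) : ℝ) : ℂ)) atTop
        (𝓝 (((s.indicator (fun _ => (1 : NNReal)) θ : NNReal) : ℝ) : ℂ)) :=
      (Complex.continuous_ofReal.comp NNReal.continuous_coe).continuousAt.tendsto.comp h2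
    have h4 := h3.mul_const (F θ)
    have h5 : (((s.indicator (fun _ => (1 : NNReal)) θ : NNReal) : ℝ) : ℂ) * F θ =
        s.indicator F θ := by
      by_cases hθ : θ ∈ s
      · rw [Set.indicator_of_mem hθ, Set.indicator_of_mem hθ]; simp
      · rw [Set.indicator_of_notMem hθ, Set.indicator_of_notMem hθ]; simp
    rw [h5] at h4
    exact h4
  have hdom : Tendsto (fun n => ∫ θ, ψ n θ * F θ ∂(mm r)) atTop
      (𝓝 (∫ θ, s.indicator F θ ∂(mm r))) := by
    refine tendsto_integral_of_dominated_convergence (fun θ => ‖F θ‖)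
      (fun n => (l1z_int hF (ψ n)).aestronglyMeasurable) hF.norm (fun n => ae_of_all _ fun θ => ?_)
      (ae_of_all _ hpt)
    rw [norm_mul]
    have h1 : ‖ψ n θ‖ ≤ 1 := by
      have h2 : thickenedIndicator (hδ n) s θ ≤ 1 := thickenedIndicator_le_one (hδ n) s θ
      change ‖(((thickenedIndicator (hδ n) s θ : NNReal) : ℝ) : ℂ)‖ ≤ 1
      rw [Complex.norm_real, Real.norm_of_nonneg (NNReal.coe_nonneg _)]
      exact_mod_cast h2
    calc ‖ψ n θ‖ * ‖F θ‖ ≤ 1 * ‖F θ‖ := mul_le_mul_of_nonneg_right h1 (norm_nonneg _)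
      _ = ‖F θ‖ := one_mul _
  rw [← integral_indicator hs.measurableSet]
  refine tendsto_nhds_unique hdom ?_
  simp only [hzero]
  exact tendsto_const_nhds

end Pool.Agent.Helper16.AZ
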